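import Pool.Agent.X88.RS.B
import Mathlib.MeasureTheory.Measure.Lebesgue.Basic

/-!
# The maps `s z ^ m R (z ^ n)`: almost every scale is good
-/

set_option autoImplicit false

open Set Filter Topology Polynomial MeasureTheory
open scoped OnePoint ENNReal

namespace Pool.Agent.X88.RS

open Pool.Agent.Helper114.Herman Pool.Agent.Helper114.Konig
open Pool.Agent.H762R2.Rt (Sinks wro wro_ne_zero injOn_of_deriv)
open Pool.Agent.X88.HI

/-- The slopes. -/
noncomputable def sk (m : ℕ) : ℕ → ℝ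
  | 0 => 1
  | k + 1 => m * sk m k + 1

/-- The possible offsets. -/
noncomputable def Lk (m : ℕ) (A B c : ℝ) : ℕ → Finset ℝ
  | 0 => {c}
  | k + 1 => (Lk m A B c k).image (fun t => m * t + A) ∪ (Lk m A B c k).image (fun t => m * t + B)

theorem card_Lk (m : ℕ) (A B c : ℝ) (k : ℕ) : (Lk m A B c k).card ≤ 2 ^ k := by
  induction k with
  | zero => simp [Lk]
  | succ k ih =>
    rw [Lk]
    refine (Finset.card_union_le _ _).trans ?_
    have h1 := Finset.card_image_le (s := Lk m A B c k) (f := fun t => m * t + A)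
    have h2 := Finset.card_image_le (s := Lk m A B c k) (f := fun t => m * t + B)
    rw [pow_succ]
    omega

theorem sk_ge {m : ℕ} (hm : 3 ≤ m) (k : ℕ) : (3 : ℝ) ^ k ≤ sk m k := by
  have hm' : (3 : ℝ) ≤ m := by exact_mod_cast hm
  induction k with
  | zero => simp [sk]
  | succ k ih =>
    rw [sk, pow_succ]
    have : (0 : ℝ) < 3 ^ k := by positivity
    nlinarith

theorem orbit_form (m : ℕ) (A B c σ : ℝ) (k : ℕ) : ∃ t ∈ Lk m A B c k,
    (T m (σ + A) (σ + B))^[k] (σ + c) = sk m k * σ + t := by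
  induction k with
  | zero => exact ⟨c, by simp [Lk], by simp [sk]⟩
  | succ k ih =>
    obtain ⟨t, ht, he⟩ := ih
    rw [Function.iterate_succ_apply', he, T]
    by_cases h : sk m k * σ + t < 0
    · refine ⟨m * t + A, ?_, ?_⟩
      · rw [Lk]
        exact Finset.mem_union_left _ (Finset.mem_image_of_mem _ ht)
      · rw [if_pos h, sk]; ring
    · refine ⟨m * t + B, ?_, ?_⟩
      · rw [Lk]
        exact Finset.mem_union_right _ (Finset.mem_image_of_mem _ ht)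
      · rw [if_neg h, sk]; ring

theorem vol_strip {s t K : ℝ} (hs : 0 < s) :
    volume {σ : ℝ | |s * σ + t| ≤ K} ≤ ENNReal.ofReal (2 * K / s) := by
  have h1 : {σ : ℝ | |s * σ + t| ≤ K} ⊆ Icc ((-K - t) / s) ((K - t) / s) := by
    intro σ hσ
    rw [mem_setOf_eq, abs_le] at hσ
    constructor
    · rw [div_le_iff₀ hs]; linarith [hσ.1]
    · rw [le_div_iff₀ hs]; linarith [hσ.2]
  refine (measure_mono h1).trans ?_
  rw [Real.volume_Icc]
  apply le_of_eq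
  congr 1
  ring

theorem null_bounded {m : ℕ} (hm : 3 ≤ m) (A B c K : ℝ) (hK : 0 ≤ K) :
    volume {σ : ℝ | ∀ k : ℕ, |(T m (σ + A) (σ + B))^[k] (σ + c)| ≤ K} = 0 := by
  have hle : ∀ k : ℕ, volume {σ : ℝ | ∀ k : ℕ, |(T m (σ + A) (σ + B))^[k] (σ + c)| ≤ K} ≤
      ENNReal.ofReal (2 * K * (2 / 3) ^ k) := by
    intro k
    have hs : 0 < sk m k := lt_of_lt_of_le (by positivity) (sk_ge hm k)
    have h1 : {σ : ℝ | ∀ k : ℕ, |(T m (σ + A) (σ + B))^[k] (σ + c)| ≤ K} ⊆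
        ⋃ t ∈ Lk m A B c k, {σ : ℝ | |sk m k * σ + t| ≤ K} := by
      intro σ hσ
      obtain ⟨t, ht, he⟩ := orbit_form m A B c σ k
      refine mem_iUnion₂.2 ⟨t, ht, ?_⟩
      rw [mem_setOf_eq, ← he]
      exact hσ k
    refine (measure_mono h1).trans ((measure_biUnion_finset_le _ _).trans ?_)
    refine (Finset.sum_le_sum fun t _ => vol_strip hs).trans ?_
    rw [Finset.sum_const, nsmul_eq_mul]
    have h2 : ((Lk m A B c k).card : ℝ≥0∞) ≤ ENNReal.ofReal (2 ^ k) := by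
      rw [ENNReal.ofReal_pow (by norm_num), ENNReal.ofReal_ofNat]
      exact_mod_cast card_Lk m A B c k
    refine (mul_le_mul_left h2 _).trans ?_
    rw [← ENNReal.ofReal_mul (by positivity)]
    apply ENNReal.ofReal_le_ofReal
    have h3 : 2 * K / sk m k ≤ 2 * K / 3 ^ k := by
      have := sk_ge hm k
      gcongr
    calc (2 : ℝ) ^ k * (2 * K / sk m k) ≤ 2 ^ k * (2 * K / 3 ^ k) := by gcongr
      _ = 2 * K * (2 / 3) ^ k := by rw [div_pow]; ring
  have hlim : Tendsto (fun k : ℕ => ENNReal.ofReal (2 * K * (2 / 3) ^ k)) atTop (𝓝 0) := by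
    rw [← ENNReal.ofReal_zero]
    apply ENNReal.tendsto_ofReal
    have := (tendsto_pow_atTop_nhds_zero_of_lt_one (r := (2 / 3 : ℝ)) (by norm_num)
      (by norm_num)).const_mul (2 * K)
    rwa [mul_zero] at this
  exact le_antisymm (ge_of_tendsto' hlim hle) bot_le

theorem countable_hit {m : ℕ} (hm : 3 ≤ m) (A B c : ℝ) :
    {σ : ℝ | ∃ k : ℕ, (T m (σ + A) (σ + B))^[k] (σ + c) = 0}.Countable := by
  have h1 : {σ : ℝ | ∃ k : ℕ, (T m (σ + A) (σ + B))^[k] (σ + c) = 0} ⊆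
      ⋃ k : ℕ, (fun t : ℝ => -t / sk m k) '' (Lk m A B c k : Set ℝ) := by
    rintro σ ⟨k, hk⟩
    obtain ⟨t, ht, he⟩ := orbit_form m A B c σ k
    refine mem_iUnion.2 ⟨k, t, ht, ?_⟩
    have hs : 0 < sk m k := lt_of_lt_of_le (by positivity) (sk_ge hm k)
    rw [hk] at he
    show -t / sk m k = σ
    rw [div_eq_iff hs.ne']
    linarith
  exact (countable_iUnion fun k => (Finset.countable_toSet _).image _).mono h1

theorem ae_good {m : ℕ} (hm : 3 ≤ m) (A B c : ℝ) : ∀ᵐ σ : ℝ, ∃ k : ℕ,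
    |σ + A| + |σ + B| + 2 < |(T m (σ + A) (σ + B))^[k] (σ + c)| ∧
      ∀ i < k, (T m (σ + A) (σ + B))^[i] (σ + c) ≠ 0 := by
  have h1 : ∀ᵐ σ : ℝ, ∀ N : ℕ, ¬ ∀ k : ℕ, |(T m (σ + A) (σ + B))^[k] (σ + c)| ≤ N := by
    rw [ae_all_iff]
    intro N
    rw [ae_iff]
    simp only [not_not]
    exact null_bounded hm A B c N (Nat.cast_nonneg _)
  have h2 : ∀ᵐ σ : ℝ, ¬ ∃ k : ℕ, (T m (σ + A) (σ + B))^[k] (σ + c) = 0 := by
    rw [ae_iff]
    simp only [not_not]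
    exact (countable_hit hm A B c).measure_zero _
  filter_upwards [h1, h2] with σ h3 h4
  obtain ⟨N, hN⟩ := exists_nat_ge (|σ + A| + |σ + B| + 2)
  have h5 := h3 N
  push Not at h5 h4
  obtain ⟨k, hk⟩ := h5
  exact ⟨k, by linarith, fun i _ => h4 i⟩

/-- The marked scales at `s = 1`. -/
def C0 (P Q : ℂ[X]) (D : ℕ) : Set ℝ :=
  {Real.log ‖P.eval 0 / Q.eval 0‖, Real.log ‖P.coeff D / Q.coeff D‖} ∪
    (fun y => Real.log ‖P.eval y / Q.eval y‖) ''
      {y | (wro P Q).eval y = 0 ∧ P.eval y ≠ 0 ∧ Q.eval y ≠ 0}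

theorem log_smul {s a : ℂ} {σ : ℝ} (hs : ‖s‖ = Real.exp σ) (ha : a ≠ 0) :
    Real.log ‖s * a‖ = σ + Real.log ‖a‖ := by
  rw [norm_mul, Real.log_mul (by rw [hs]; exact (Real.exp_pos σ).ne') (norm_ne_zero_iff.2 ha), hs,
    Real.log_exp]

theorem mem_Cs {P Q : ℂ[X]} {D m : ℕ} {s : ℂ} (h : Dat P Q D m s) {σ : ℝ}
    (hs : ‖s‖ = Real.exp σ) {c : ℝ} (hc : c ∈ Cs P Q D s) : ∃ c' ∈ C0 P Q D, c = σ + c' := by
  have hP : P.coeff D ≠ 0 := by
    rw [← h.dP]; exact leadingCoeff_ne_zero.2 h.P_ne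
  have hQ : Q.coeff D ≠ 0 := by
    rw [← h.dQ]; exact leadingCoeff_ne_zero.2 h.Q_ne
  rcases hc with (rfl | hc) | ⟨y, hy, rfl⟩
  · exact ⟨_, Or.inl (Or.inl rfl), log_smul hs (div_ne_zero h.P0 h.Q0)⟩
  · rw [mem_singleton_iff] at hc
    rw [hc]
    exact ⟨_, Or.inl (Or.inr rfl), log_smul hs (div_ne_zero hP hQ)⟩
  · exact ⟨_, Or.inr ⟨y, hy, rfl⟩, log_smul hs (div_ne_zero hy.2.1 hy.2.2)⟩

theorem ae_main {P Q : ℂ[X]} {D m : ℕ} (h : ∀ s : ℂ, s ≠ 0 → Dat P Q D m s) (hm : 3 ≤ m) :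
    ∀ᵐ σ : ℝ, ∀ s : ℂ, ‖s‖ = Real.exp σ →
      ∀ᶠ n : ℕ in atTop, ∀ f, IsF P Q m n s f → ∀ c, Crit f c → Sinks f c := by
  have h1 := h 1 one_ne_zero
  have hP : P.coeff D ≠ 0 := by
    rw [← h1.dP]; exact leadingCoeff_ne_zero.2 h1.P_ne
  have hQ : Q.coeff D ≠ 0 := by
    rw [← h1.dQ]; exact leadingCoeff_ne_zero.2 h1.Q_ne
  have hfin : (C0 P Q D).Finite := by
    have hD : 1 ≤ max P.natDegree Q.natDegree := by
      rw [h1.dP]; exact h1.D1.trans (le_max_left _ _)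
    have hW : wro P Q ≠ 0 := wro_ne_zero h1.cop hD
    refine Set.Finite.union (by simp) (Set.Finite.image _ ?_)
    refine ((Multiset.toFinset (wro P Q).roots).finite_toSet).subset ?_
    rintro y ⟨hy, -⟩
    rw [Finset.mem_coe, Multiset.mem_toFinset, mem_roots hW]
    exact hy
  have h2 : ∀ᵐ σ : ℝ, ∀ c ∈ C0 P Q D, ∃ k : ℕ,
      |σ + Real.log ‖P.eval 0 / Q.eval 0‖| + |σ + Real.log ‖P.coeff D / Q.coeff D‖| + 2 <
        |(T m (σ + Real.log ‖P.eval 0 / Q.eval 0‖)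
          (σ + Real.log ‖P.coeff D / Q.coeff D‖))^[k] (σ + c)| ∧
      ∀ i < k, (T m (σ + Real.log ‖P.eval 0 / Q.eval 0‖)
        (σ + Real.log ‖P.coeff D / Q.coeff D‖))^[i] (σ + c) ≠ 0 := by
    rw [ae_ball_iff hfin.countable]
    intro c _
    exact ae_good hm _ _ c
  filter_upwards [h2] with σ h3 s hs
  have hs0 : s ≠ 0 := by
    rintro rfl
    rw [norm_zero] at hs
    exact (Real.exp_pos σ).ne hs
  have hd := h s hs0
  have ha : al P Q s = σ + Real.log ‖P.eval 0 / Q.eval 0‖ :=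
    log_smul hs (div_ne_zero hd.P0 hd.Q0)
  have hb : be P Q D s = σ + Real.log ‖P.coeff D / Q.coeff D‖ :=
    log_smul hs (div_ne_zero hP hQ)
  refine main hd hm (K := |al P Q s| + |be P Q D s| + 2) ?_ ?_ ?_ ?_
  · have := abs_nonneg (al P Q s)
    have := abs_nonneg (be P Q D s)
    linarith
  · have := abs_nonneg (be P Q D s)
    linarith
  · have := abs_nonneg (al P Q s)
    linarith
  · intro c hc
    obtain ⟨c', hc', rfl⟩ := mem_Cs hd hs hc
    rw [ha, hb]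
    exact h3 c' hc'

end Pool.Agent.X88.RS
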