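import Pool.Agent.X88.HI.D
import Pool.Agent.H762R2.RtD

/-!
# The maps `s z ^ m R (z ^ n)`: the critical values
-/

set_option autoImplicit false

open Set Filter Topology Polynomial
open scoped OnePoint

namespace Pool.Agent.X88.RS

open Pool.Agent.Helper114.Herman Pool.Agent.Helper114.Konig
open Pool.Agent.H762R2.Rt (Sinks wro wro_ne_zero)
open Pool.Agent.X88.HI

/-- The hypotheses on `R = P / Q`. -/
structure Dat (P Q : ℂ[X]) (D m : ℕ) (s : ℂ) : Prop where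
  cop : IsCoprime P Q
  dP : P.natDegree = D
  dQ : Q.natDegree = D
  D1 : 1 ≤ D
  m2 : 2 ≤ m
  s0 : s ≠ 0
  P0 : P.eval 0 ≠ 0
  Q0 : Q.eval 0 ≠ 0

/-- numerator -/
noncomputable def PP (P : ℂ[X]) (m n : ℕ) (s : ℂ) : ℂ[X] := C s * (X ^ m * expand ℂ n P)

/-- The plane map. -/
noncomputable def pl (P Q : ℂ[X]) (m n : ℕ) (s z : ℂ) : ℂ :=
  s * (z ^ m * P.eval (z ^ n)) / Q.eval (z ^ n)

/-- The logarithm of the modulus of `s R w`. -/
noncomputable def lg (P Q : ℂ[X]) (s w : ℂ) : ℝ := Real.log ‖s * (P.eval w / Q.eval w)‖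

theorem near_pt {P Q : ℂ[X]} {s y : ℂ} (hs : s ≠ 0) (hP : P.eval y ≠ 0) (hQ : Q.eval y ≠ 0)
    {ε : ℝ} (hε : 0 < ε) : ∃ ρ : ℝ, 0 < ρ ∧ ∀ w : ℂ, ‖w - y‖ < ρ →
      P.eval w ≠ 0 ∧ Q.eval w ≠ 0 ∧ |lg P Q s w - lg P Q s y| ≤ ε := by
  have hc : ContinuousAt (fun w : ℂ => lg P Q s w) y := by
    unfold lg
    apply ContinuousAt.log
    · exact (continuousAt_const.mul (P.continuous.continuousAt.div Q.continuous.continuousAt
        hQ)).norm
    · exact norm_ne_zero_iff.2 (mul_ne_zero hs (div_ne_zero hP hQ))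
  have h1 : ∀ᶠ w in 𝓝 y, P.eval w ≠ 0 ∧ Q.eval w ≠ 0 ∧ |lg P Q s w - lg P Q s y| ≤ ε := by
    refine (P.continuous.continuousAt.eventually_ne hP).and
      ((Q.continuous.continuousAt.eventually_ne hQ).and ?_)
    have h2 := Metric.continuousAt_iff'.1 hc ε hε
    filter_upwards [h2] with w hw
    rw [Real.dist_eq] at hw
    exact hw.le
  obtain ⟨ρ, hρ, h2⟩ := Metric.eventually_nhds_iff.1 h1
  exact ⟨ρ, hρ, fun w hw => h2 (by rwa [dist_eq_norm])⟩

theorem hom_inv {P : ℂ[X]} {D : ℕ} (h : P.natDegree ≤ D) {w : ℂ} (hw : w ≠ 0) :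
    P.eval w = w ^ D * hom P D 1 w⁻¹ := by
  rw [hom_ne h (inv_ne_zero hw), one_div, inv_inv, inv_pow, ← mul_assoc,
    mul_inv_cancel₀ (pow_ne_zero _ hw), one_mul]

theorem continuous_hom_one (P : ℂ[X]) (D : ℕ) : Continuous fun v : ℂ => hom P D 1 v := by
  unfold hom
  fun_prop

theorem hom_one_zero (P : ℂ[X]) (D : ℕ) : hom P D 1 0 = P.coeff D := by
  rw [hom_zero, one_pow, mul_one]

theorem near_inf {P Q : ℂ[X]} {D : ℕ} {s : ℂ} (hs : s ≠ 0) (hP : P.natDegree = D)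
    (hQ : Q.natDegree = D) (hP0 : P ≠ 0) (hQ0 : Q ≠ 0) {ε : ℝ} (hε : 0 < ε) :
    ∃ ρ : ℝ, 0 < ρ ∧ ∀ w : ℂ, ρ < ‖w‖ → P.eval w ≠ 0 ∧ Q.eval w ≠ 0 ∧
      |lg P Q s w - Real.log ‖s * (P.coeff D / Q.coeff D)‖| ≤ ε := by
  have hPD : hom P D 1 0 ≠ 0 := by
    rw [hom_one_zero, ← hP]; exact leadingCoeff_ne_zero.2 hP0
  have hQD : hom Q D 1 0 ≠ 0 := by
    rw [hom_one_zero, ← hQ]; exact leadingCoeff_ne_zero.2 hQ0
  have hcP := (continuous_hom_one P D).continuousAt (x := (0 : ℂ))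
  have hcQ := (continuous_hom_one Q D).continuousAt (x := (0 : ℂ))
  have hc : ContinuousAt (fun v : ℂ => Real.log ‖s * (hom P D 1 v / hom Q D 1 v)‖) 0 := by
    apply ContinuousAt.log
    · exact (continuousAt_const.mul (hcP.div hcQ hQD)).norm
    · exact norm_ne_zero_iff.2 (mul_ne_zero hs (div_ne_zero hPD hQD))
  have h1 : ∀ᶠ v in 𝓝 (0 : ℂ), hom P D 1 v ≠ 0 ∧ hom Q D 1 v ≠ 0 ∧
      |Real.log ‖s * (hom P D 1 v / hom Q D 1 v)‖ -
        Real.log ‖s * (hom P D 1 0 / hom Q D 1 0)‖| ≤ ε := by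
    refine (hcP.eventually_ne hPD).and ((hcQ.eventually_ne hQD).and ?_)
    filter_upwards [Metric.continuousAt_iff'.1 hc ε hε] with w hw
    rw [Real.dist_eq] at hw
    exact hw.le
  obtain ⟨ρ, hρ, h2⟩ := Metric.eventually_nhds_iff.1 h1
  refine ⟨ρ⁻¹, inv_pos.2 hρ, fun w hw => ?_⟩
  have hw0 : 0 < ‖w‖ := (inv_pos.2 hρ).trans hw
  have hwne : w ≠ 0 := norm_pos_iff.1 hw0
  have h3 := h2 (y := w⁻¹) (by
    rw [dist_zero_right, norm_inv]
    exact (inv_lt_comm₀ hρ hw0).1 hw)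
  obtain ⟨h4, h5, h6⟩ := h3
  have hpow : w ^ D ≠ 0 := pow_ne_zero _ hwne
  refine ⟨?_, ?_, ?_⟩
  · rw [hom_inv hP.le hwne]; exact mul_ne_zero hpow h4
  · rw [hom_inv hQ.le hwne]; exact mul_ne_zero hpow h5
  · rw [hom_one_zero, hom_one_zero] at h6
    have e : P.eval w / Q.eval w = hom P D 1 w⁻¹ / hom Q D 1 w⁻¹ := by
      rw [hom_inv hP.le hwne, hom_inv hQ.le hwne, mul_div_mul_left _ _ hpow]
    unfold lg
    rw [e]
    exact h6

theorem near_zero {P Q : ℂ[X]} {s y : ℂ} (hP : P.eval y = 0) (hQ : Q.eval y ≠ 0)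
    (H : ℝ) (hs : s ≠ 0) : ∃ ρ : ℝ, 0 < ρ ∧ ∀ w : ℂ, ‖w - y‖ < ρ → P.eval w ≠ 0 →
      Q.eval w ≠ 0 → lg P Q s w ≤ H := by
  have hc : ContinuousAt (fun w : ℂ => ‖s * (P.eval w / Q.eval w)‖) y :=
    (continuousAt_const.mul (P.continuous.continuousAt.div Q.continuous.continuousAt hQ)).norm
  have h0 : ‖s * (P.eval y / Q.eval y)‖ < Real.exp H := by
    rw [hP, zero_div, mul_zero, norm_zero]
    exact Real.exp_pos H
  have h1 := hc.eventually_lt continuousAt_const h0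
  obtain ⟨ρ, hρ, h2⟩ := Metric.eventually_nhds_iff.1 h1
  refine ⟨ρ, hρ, fun w hw h3 h4 => ?_⟩
  have h5 := h2 (y := w) (by rwa [dist_eq_norm])
  unfold lg
  have h6 : 0 < ‖s * (P.eval w / Q.eval w)‖ := norm_pos_iff.2 (mul_ne_zero hs (div_ne_zero h3 h4))
  exact ((Real.log_lt_iff_lt_exp h6).2 h5).le

theorem lg_swap {P Q : ℂ[X]} {s w : ℂ} : lg P Q s w = - lg Q P s⁻¹ w := by
  unfold lg
  rw [← Real.log_inv, ← norm_inv]
  congr 2
  rw [mul_inv, inv_inv, inv_div]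

theorem natDegree_wro {P Q : ℂ[X]} {D : ℕ} (hP : P.natDegree = D) (hQ : Q.natDegree = D)
    (hD : 1 ≤ D) : (wro P Q).natDegree ≤ 2 * D - 2 := by
  obtain ⟨E, rfl⟩ : ∃ E, D = E + 1 := ⟨D - 1, by omega⟩
  have h1 : (derivative P).natDegree ≤ E := by
    have := natDegree_derivative_le P; omega
  have h2 : (derivative Q).natDegree ≤ E := by
    have := natDegree_derivative_le Q; omega
  have h3 : (wro P Q).natDegree ≤ 2 * E + 1 := by
    unfold wro
    refine (natDegree_sub_le _ _).trans (max_le ?_ ?_)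
    · refine natDegree_mul_le.trans ?_
      omega
    · refine natDegree_mul_le.trans ?_
      omega
  have h4 : (wro P Q).coeff (2 * E + 1) = 0 := by
    unfold wro
    rw [coeff_sub]
    have e1 : 2 * E + 1 = E + (E + 1) := by ring
    have e2 : 2 * E + 1 = (E + 1) + E := by ring
    rw [show (derivative P * Q).coeff (2 * E + 1) = (derivative P).coeff E * Q.coeff (E + 1) by
      rw [e1, coeff_mul_add_eq_of_natDegree_le h1 hQ.le],
      show (P * derivative Q).coeff (2 * E + 1) = P.coeff (E + 1) * (derivative Q).coeff E by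
      rw [e2, coeff_mul_add_eq_of_natDegree_le hP.le h2], coeff_derivative, coeff_derivative]
    ring
  have h5 : (wro P Q).natDegree ≠ 2 * E + 1 ∨ wro P Q = 0 := by
    by_contra hcon
    push Not at hcon
    have h6 := leadingCoeff_ne_zero.2 hcon.2
    rw [leadingCoeff, hcon.1] at h6
    exact h6 h4
  rcases h5 with h5 | h5
  · omega
  · rw [h5, natDegree_zero]; omega

/-- The equation for the critical points. -/
def CEq (P Q : ℂ[X]) (m n : ℕ) (w : ℂ) : Prop :=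
  P.eval w ≠ 0 ∧ Q.eval w ≠ 0 ∧ w ≠ 0 ∧
    (m : ℂ) * (P.eval w * Q.eval w) + n * (w * (wro P Q).eval w) = 0

theorem CEq.nrm {P Q : ℂ[X]} {m n : ℕ} {w : ℂ} (h : CEq P Q m n w) :
    (m : ℝ) * ‖P.eval w * Q.eval w‖ = n * (‖w‖ * ‖(wro P Q).eval w‖) := by
  have h1 := h.2.2.2
  rw [add_eq_zero_iff_eq_neg] at h1
  have h2 := congrArg norm h1
  rw [norm_neg, norm_mul, norm_mul (n : ℂ), norm_mul w, Complex.norm_natCast,
    Complex.norm_natCast] at h2
  exact h2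

theorem log_small {P Q : ℂ[X]} {D m : ℕ} {s : ℂ} (h : Dat P Q D m s) {ε : ℝ} (hε : 0 < ε) :
    ∀ᶠ n : ℕ in atTop, ∀ w : ℂ, CEq P Q m n w → (m : ℝ) / n * |Real.log ‖w‖| ≤ ε := by
  have hm0 : (0 : ℝ) < m := by
    have := h.m2
    exact_mod_cast (by omega : 0 < m)
  have hP0 : P ≠ 0 := by
    rintro rfl
    exact h.P0 (by simp)
  have hQ0 : Q ≠ 0 := by
    rintro rfl
    exact h.Q0 (by simp)
  -- near zero
  have hz : ∃ ρ c K : ℝ, 0 < ρ ∧ 0 < c ∧ 0 < K ∧ ∀ w : ℂ, ‖w‖ < ρ →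
      c ≤ ‖P.eval w * Q.eval w‖ ∧ ‖(wro P Q).eval w‖ ≤ K := by
    have hc1 : ContinuousAt (fun w : ℂ => ‖P.eval w * Q.eval w‖) 0 :=
      (P.continuous.continuousAt.mul Q.continuous.continuousAt).norm
    have hpos : 0 < ‖P.eval 0 * Q.eval 0‖ := norm_pos_iff.2 (mul_ne_zero h.P0 h.Q0)
    have h1 := continuousAt_const.eventually_lt hc1 (half_lt_self hpos)
    have hc2 : ContinuousAt (fun w : ℂ => ‖(wro P Q).eval w‖) 0 :=
      (wro P Q).continuous.continuousAt.norm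
    have h2 := hc2.eventually_lt (continuousAt_const (y := ‖(wro P Q).eval 0‖ + 1))
      (lt_add_one _)
    obtain ⟨ρ, hρ, h3⟩ := Metric.eventually_nhds_iff.1 (h1.and h2)
    refine ⟨ρ, _, ‖(wro P Q).eval 0‖ + 1, hρ, half_pos hpos, by positivity, fun w hw => ?_⟩
    have h4 := h3 (y := w) (by rwa [dist_zero_right])
    exact ⟨h4.1.le, h4.2.le⟩
  have hi : ∃ ρ c K : ℝ, 0 < ρ ∧ 0 < c ∧ 0 < K ∧ ∀ w : ℂ, ρ < ‖w‖ →
      c * ‖w‖ ^ (2 * D) ≤ ‖P.eval w * Q.eval w‖ ∧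
      ‖(wro P Q).eval w‖ * ‖w‖ ^ 2 ≤ K * ‖w‖ ^ (2 * D) := by
    have hc1 : ContinuousAt (fun v : ℂ => ‖hom P D 1 v * hom Q D 1 v‖) 0 :=
      ((continuous_hom_one P D).continuousAt.mul (continuous_hom_one Q D).continuousAt).norm
    have hpos : 0 < ‖hom P D 1 0 * hom Q D 1 0‖ := by
      rw [hom_one_zero, hom_one_zero]
      refine norm_pos_iff.2 (mul_ne_zero ?_ ?_)
      · rw [← h.dP]; exact leadingCoeff_ne_zero.2 hP0
      · rw [← h.dQ]; exact leadingCoeff_ne_zero.2 hQ0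
    have h1 := continuousAt_const.eventually_lt hc1 (half_lt_self hpos)
    have hc2 : ContinuousAt (fun v : ℂ => ‖hom (wro P Q) (2 * D - 2) 1 v‖) 0 :=
      (continuous_hom_one _ _).continuousAt.norm
    have h2 := hc2.eventually_lt
      (continuousAt_const (y := ‖hom (wro P Q) (2 * D - 2) 1 0‖ + 1)) (lt_add_one _)
    obtain ⟨ρ, hρ, h3⟩ := Metric.eventually_nhds_iff.1 (h1.and h2)
    refine ⟨ρ⁻¹, ‖hom P D 1 0 * hom Q D 1 0‖ / 2, ‖hom (wro P Q) (2 * D - 2) 1 0‖ + 1,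
      inv_pos.2 hρ, half_pos hpos, by positivity, fun w hw => ?_⟩
    have hw0 : 0 < ‖w‖ := (inv_pos.2 hρ).trans hw
    have hwne : w ≠ 0 := norm_pos_iff.1 hw0
    have h4 := h3 (y := w⁻¹) (by
      rw [dist_zero_right, norm_inv]
      exact (inv_lt_comm₀ hρ hw0).1 hw)
    constructor
    · rw [hom_inv h.dP.le hwne, hom_inv h.dQ.le hwne]
      have e : w ^ D * hom P D 1 w⁻¹ * (w ^ D * hom Q D 1 w⁻¹) =
          w ^ (2 * D) * (hom P D 1 w⁻¹ * hom Q D 1 w⁻¹) := by ring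
      have e' : ‖w ^ (2 * D) * (hom P D 1 w⁻¹ * hom Q D 1 w⁻¹)‖ =
          ‖hom P D 1 w⁻¹ * hom Q D 1 w⁻¹‖ * ‖w‖ ^ (2 * D) := by
        rw [norm_mul (w ^ (2 * D)), norm_pow, mul_comm]
      rw [e, e']
      exact mul_le_mul_of_nonneg_right h4.1.le (by positivity)
    · rw [hom_inv (natDegree_wro h.dP h.dQ h.D1) hwne, norm_mul, norm_pow]
      have e2 : ‖w‖ ^ (2 * D - 2) * ‖hom (wro P Q) (2 * D - 2) 1 w⁻¹‖ * ‖w‖ ^ 2 =
          ‖hom (wro P Q) (2 * D - 2) 1 w⁻¹‖ * ‖w‖ ^ (2 * D) := by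
        have e3 : ‖w‖ ^ (2 * D) = ‖w‖ ^ (2 * D - 2) * ‖w‖ ^ 2 := by
          rw [← pow_add]
          congr 1
          have := h.D1
          omega
        rw [e3]
        ring
      rw [e2]
      exact mul_le_mul_of_nonneg_right h4.2.le (by positivity)
  obtain ⟨ρ₁, c₁, K₁, hρ₁, hc₁, hK₁, H1⟩ := hz
  obtain ⟨ρ₂, c₂, K₂, hρ₂, hc₂, hK₂, H2⟩ := hi
  -- bounds for the solutions
  set L : ℝ := |Real.log ρ₁| + |Real.log ρ₂| + |Real.log (m * c₁ / K₁)| +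
    |Real.log (K₂ / (m * c₂))| with hL
  have hbound : ∀ n : ℕ, 1 ≤ n → ∀ w : ℂ, CEq P Q m n w → |Real.log ‖w‖| ≤ Real.log n + L := by
    intro n hn w hw
    have hn0 : (0 : ℝ) < n := by exact_mod_cast hn
    have hlogn : 0 ≤ Real.log n := Real.log_nonneg (by exact_mod_cast hn)
    have hw0 : 0 < ‖w‖ := norm_pos_iff.2 hw.2.2.1
    have hEq := hw.nrm
    rw [abs_le]
    constructor
    · -- lower bound
      rcases lt_or_ge ‖w‖ ρ₁ with h1 | h1
      · obtain ⟨h2, h3⟩ := H1 w h1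
        have h4 : (m : ℝ) * c₁ ≤ n * (‖w‖ * K₁) := by
          calc (m : ℝ) * c₁ ≤ m * ‖P.eval w * Q.eval w‖ := mul_le_mul_of_nonneg_left h2 hm0.le
            _ = n * (‖w‖ * ‖(wro P Q).eval w‖) := hEq
            _ ≤ n * (‖w‖ * K₁) := by gcongr
        have h5 : m * c₁ / K₁ ≤ n * ‖w‖ := by
          rw [div_le_iff₀ hK₁]
          linarith
        have h6 := Real.log_le_log (by positivity) h5
        rw [Real.log_mul hn0.ne' hw0.ne'] at h6
        have h7 := neg_abs_le (Real.log (m * c₁ / K₁))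
        have h8 := abs_nonneg (Real.log ρ₁)
        have h9 := abs_nonneg (Real.log ρ₂)
        have h10 := abs_nonneg (Real.log (K₂ / (m * c₂)))
        linarith
      · have h6 := Real.log_le_log hρ₁ h1
        have h7 := neg_abs_le (Real.log ρ₁)
        have h8 := abs_nonneg (Real.log (m * c₁ / K₁))
        have h9 := abs_nonneg (Real.log ρ₂)
        have h10 := abs_nonneg (Real.log (K₂ / (m * c₂)))
        linarith
    · rcases lt_or_ge ρ₂ ‖w‖ with h1 | h1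
      · obtain ⟨h2, h3⟩ := H2 w h1
        have h4 : (m : ℝ) * (c₂ * ‖w‖ ^ (2 * D)) * ‖w‖ ≤ n * (K₂ * ‖w‖ ^ (2 * D)) := by
          calc (m : ℝ) * (c₂ * ‖w‖ ^ (2 * D)) * ‖w‖ ≤ m * ‖P.eval w * Q.eval w‖ * ‖w‖ := by gcongr
            _ = n * (‖(wro P Q).eval w‖ * ‖w‖ ^ 2) := by rw [hEq]; ring
            _ ≤ n * (K₂ * ‖w‖ ^ (2 * D)) := by gcongr
        have hpw : 0 < ‖w‖ ^ (2 * D) := by positivity
        have h5 : ‖w‖ ≤ n * (K₂ / (m * c₂)) := by
          rw [← mul_div_assoc, le_div_iff₀ (by positivity)]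
          have h6 : (‖w‖ * (m * c₂)) * ‖w‖ ^ (2 * D) ≤ (n * K₂) * ‖w‖ ^ (2 * D) := by
            nlinarith [h4]
          exact le_of_mul_le_mul_right h6 hpw
        have h6 := Real.log_le_log hw0 h5
        rw [Real.log_mul hn0.ne' (by positivity)] at h6
        have h7 := le_abs_self (Real.log (K₂ / (m * c₂)))
        have h8 := abs_nonneg (Real.log ρ₁)
        have h9 := abs_nonneg (Real.log ρ₂)
        have h10 := abs_nonneg (Real.log (m * c₁ / K₁))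
        linarith
      · have h6 := Real.log_le_log hw0 h1
        have h7 := le_abs_self (Real.log ρ₂)
        have h8 := abs_nonneg (Real.log ρ₁)
        have h9 := abs_nonneg (Real.log (K₂ / (m * c₂)))
        have h10 := abs_nonneg (Real.log (m * c₁ / K₁))
        linarith
  have hlim : Tendsto (fun n : ℕ => (m : ℝ) / n * (Real.log n + L)) atTop (𝓝 0) := by
    have h1 : Tendsto (fun x : ℝ => Real.log x / x) atTop (𝓝 0) := by
      simpa using Real.isLittleO_log_id_atTop.tendsto_div_nhds_zero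
    have h2 := h1.comp tendsto_natCast_atTop_atTop
    have h3 : Tendsto (fun n : ℕ => L / (n : ℝ)) atTop (𝓝 0) :=
      tendsto_const_nhds.div_atTop tendsto_natCast_atTop_atTop
    have h4 := (h2.add h3).const_mul (m : ℝ)
    rw [add_zero, mul_zero] at h4
    refine h4.congr fun n => ?_
    simp only [Function.comp_apply]
    ring
  filter_upwards [hlim.eventually (ge_mem_nhds hε), eventually_ge_atTop 1] with n hn hn1 w hw
  refine le_trans ?_ hn
  exact mul_le_mul_of_nonneg_left (hbound n hn1 w hw) (by positivity)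

/-- The logarithms of the moduli of the limits of critical values. -/
def Cs (P Q : ℂ[X]) (D : ℕ) (s : ℂ) : Set ℝ :=
  {Real.log ‖s * (P.eval 0 / Q.eval 0)‖, Real.log ‖s * (P.coeff D / Q.coeff D)‖} ∪
    (fun y => Real.log ‖s * (P.eval y / Q.eval y)‖) ''
      {y | (wro P Q).eval y = 0 ∧ P.eval y ≠ 0 ∧ Q.eval y ≠ 0}

theorem crit_val {P Q : ℂ[X]} {D m : ℕ} {s : ℂ} (h : Dat P Q D m s) {ε : ℝ} (hε : 0 < ε)
    (H : ℝ) : ∀ᶠ n : ℕ in atTop, ∀ z : ℂ, CEq P Q m n (z ^ n) → z ≠ 0 →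
      (∃ c ∈ Cs P Q D s, |Real.log ‖pl P Q m n s z‖ - c| ≤ ε) ∨
        Real.log ‖pl P Q m n s z‖ ≤ -H ∨ H ≤ Real.log ‖pl P Q m n s z‖ := by
  have hs := h.s0
  have hm0 : (0 : ℝ) < m := by
    have := h.m2
    exact_mod_cast (by omega : 0 < m)
  have hP0 : P ≠ 0 := by
    rintro rfl
    exact h.P0 (by simp)
  have hQ0 : Q ≠ 0 := by
    rintro rfl
    exact h.Q0 (by simp)
  have hD : 1 ≤ max P.natDegree Q.natDegree := by rw [h.dP]; exact h.D1.trans (le_max_left _ _)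
  have hW : wro P Q ≠ 0 := wro_ne_zero h.cop hD
  -- the good property
  set G : ℂ → Prop := fun w => (∃ c ∈ Cs P Q D s, |lg P Q s w - c| ≤ ε / 2) ∨
    lg P Q s w ≤ -H - ε ∨ H + ε ≤ lg P Q s w with hG
  have hpt : ∀ y : ℂ, (y = 0 ∨ (wro P Q).eval y = 0) → ∃ ρ : ℝ, 0 < ρ ∧ ∀ w : ℂ, ‖w - y‖ < ρ →
      P.eval w ≠ 0 → Q.eval w ≠ 0 → G w := by
    intro y hy
    by_cases hPy : P.eval y = 0
    · have hQy : Q.eval y ≠ 0 := ((coprime_iff.1 h.cop y).resolve_left (not_not.2 hPy))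
      obtain ⟨ρ, hρ, h1⟩ := near_zero hPy hQy (-H - ε) hs
      exact ⟨ρ, hρ, fun w hw h2 h3 => Or.inr (Or.inl (h1 w hw h2 h3))⟩
    by_cases hQy : Q.eval y = 0
    · obtain ⟨ρ, hρ, h1⟩ := near_zero hQy hPy (-H - ε) (inv_ne_zero hs)
      refine ⟨ρ, hρ, fun w hw h2 h3 => Or.inr (Or.inr ?_)⟩
      have h4 := h1 w hw h3 h2
      rw [lg_swap]
      linarith
    · obtain ⟨ρ, hρ, h1⟩ := near_pt hs hPy hQy (half_pos hε)
      refine ⟨ρ, hρ, fun w hw _ _ => Or.inl ⟨lg P Q s y, ?_, (h1 w hw).2.2⟩⟩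
      rcases hy with rfl | hy
      · exact Or.inl (Or.inl rfl)
      · exact Or.inr ⟨y, ⟨hy, hPy, hQy⟩, rfl⟩
  obtain ⟨ρi, hρi, hinf⟩ := near_inf hs h.dP h.dQ hP0 hQ0 (half_pos hε)
  have hinfG : ∀ w : ℂ, ρi < ‖w‖ → G w := fun w hw =>
    Or.inl ⟨_, Or.inl (Or.inr rfl), (hinf w hw).2.2⟩
  choose! ρ hρ hρG using hpt
  -- the finite set of centres
  set Y : Set ℂ := {y | y = 0 ∨ (wro P Q).eval y = 0} with hY
  have hYfin : Y.Finite := by
    refine (((Multiset.toFinset (wro P Q).roots).finite_toSet).insert 0).subset ?_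
    rintro y (hy | hy)
    · exact Or.inl hy
    · refine Or.inr ?_
      rw [Finset.mem_coe, Multiset.mem_toFinset, mem_roots hW]
      exact hy
  set K : Set ℂ := Metric.closedBall 0 ρi ∩ (⋃ y ∈ Y, Metric.ball y (ρ y))ᶜ with hK
  have hKc : IsCompact K := by
    refine (isCompact_closedBall 0 ρi).inter_right ?_
    exact (isOpen_biUnion fun y _ => Metric.isOpen_ball).isClosed_compl
  have hno : ∀ᶠ n : ℕ in atTop, ∀ w ∈ K, ¬ CEq P Q m n w := by
    rcases K.eq_empty_or_nonempty with h0 | h0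
    · rw [h0]; simp
    obtain ⟨w₀, hw₀, hmin⟩ := hKc.exists_isMinOn h0
      (f := fun w : ℂ => ‖w * (wro P Q).eval w‖)
      ((continuous_id.mul (wro P Q).continuous).norm.continuousOn)
    obtain ⟨w₁, hw₁, hmax⟩ := hKc.exists_isMaxOn h0
      (f := fun w : ℂ => ‖P.eval w * Q.eval w‖)
      ((P.continuous.mul Q.continuous).norm.continuousOn)
    have hμ : 0 < ‖w₀ * (wro P Q).eval w₀‖ := by
      rw [norm_pos_iff]
      intro h1
      have hw₀Y : w₀ ∈ Y := by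
        rcases mul_eq_zero.1 h1 with h2 | h2
        · exact Or.inl h2
        · exact Or.inr h2
      apply hw₀.2
      rw [mem_iUnion₂]
      exact ⟨w₀, hw₀Y, Metric.mem_ball_self (hρ w₀ hw₀Y)⟩
    obtain ⟨N, hN⟩ := exists_nat_gt (m * ‖P.eval w₁ * Q.eval w₁‖ / ‖w₀ * (wro P Q).eval w₀‖)
    filter_upwards [eventually_ge_atTop N] with n hn w hw hEq
    have h1 := hEq.nrm
    have h2 : ‖w₀ * (wro P Q).eval w₀‖ ≤ ‖w * (wro P Q).eval w‖ := hmin hw
    have h3 : ‖P.eval w * Q.eval w‖ ≤ ‖P.eval w₁ * Q.eval w₁‖ := hmax hw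
    rw [div_lt_iff₀ hμ] at hN
    rw [← norm_mul] at h1
    have h4 : (N : ℝ) ≤ n := by exact_mod_cast hn
    have h5 : (N : ℝ) * ‖w₀ * (wro P Q).eval w₀‖ ≤ n * ‖w * (wro P Q).eval w‖ := by gcongr
    have h6 : (m : ℝ) * ‖P.eval w * Q.eval w‖ ≤ m * ‖P.eval w₁ * Q.eval w₁‖ := by gcongr
    linarith
  filter_upwards [hno, log_small h (half_pos hε), eventually_ge_atTop 1] with n h1 h2 hn1 z hz hz0
  have hn0 : (0 : ℝ) < n := by exact_mod_cast hn1
  have hGw : G (z ^ n) := by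
    rcases lt_or_ge ρi ‖z ^ n‖ with h3 | h3
    · exact hinfG _ h3
    · have h4 : z ^ n ∈ ⋃ y ∈ Y, Metric.ball y (ρ y) := by
        by_contra h5
        exact h1 _ ⟨by rwa [mem_closedBall_zero_iff], h5⟩ hz
      rw [mem_iUnion₂] at h4
      obtain ⟨y, hy, h5⟩ := h4
      rw [Metric.mem_ball, dist_eq_norm] at h5
      exact hρG y hy _ h5 hz.1 hz.2.1
  have h3 := h2 _ hz
  have hval : Real.log ‖pl P Q m n s z‖ = lg P Q s (z ^ n) + m / n * Real.log ‖z ^ n‖ := by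
    unfold pl lg
    have e : s * (z ^ m * P.eval (z ^ n)) / Q.eval (z ^ n) =
        (s * (P.eval (z ^ n) / Q.eval (z ^ n))) * z ^ m := by ring
    rw [e, norm_mul, Real.log_mul (norm_ne_zero_iff.2 (mul_ne_zero hs (div_ne_zero hz.1 hz.2.1)))
      (norm_ne_zero_iff.2 (pow_ne_zero _ hz0)), norm_pow, norm_pow, Real.log_pow, Real.log_pow]
    field_simp
  have h4 : |(m : ℝ) / n * Real.log ‖z ^ n‖| ≤ ε / 2 := by
    rw [abs_mul, abs_of_nonneg (by positivity : (0 : ℝ) ≤ m / n)]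
    exact h3
  rw [abs_le] at h4
  rw [hval]
  rcases hGw with ⟨c, hc, h5⟩ | h5 | h5
  · left
    refine ⟨c, hc, ?_⟩
    rw [abs_le] at h5 ⊢
    constructor <;> linarith [h5.1, h5.2, h4.1, h4.2]
  · right; left; linarith [h4.2]
  · right; right; linarith [h4.1]

end Pool.Agent.X88.RS
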