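import Pool.Agent.X88.RS.A

/-!
# The maps `s z ^ m R (z ^ n)`: dynamics
-/

set_option autoImplicit false

open Set Filter Topology Polynomial
open scoped OnePoint

namespace Pool.Agent.X88.RS

open Pool.Agent.Helper114.Herman Pool.Agent.Helper114.Konig
open Pool.Agent.H762R2.Rt (Sinks wro wro_ne_zero injOn_of_deriv)
open Pool.Agent.X88.HI

/-- `f` is the rational map `s z ^ m R (z ^ n)`. -/
def IsF (P Q : ℂ[X]) (m n : ℕ) (s : ℂ) (f : OnePoint ℂ → OnePoint ℂ) : Prop :=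
  IsRat f (PP P m n s) (expand ℂ n Q) ∧ f ∞ = ∞

theorem PP_eval (P : ℂ[X]) (m n : ℕ) (s z : ℂ) :
    (PP P m n s).eval z = s * (z ^ m * P.eval (z ^ n)) := by
  simp [PP, expand_eval]

theorem coprime_PP {P Q : ℂ[X]} {D m : ℕ} {s : ℂ} (h : Dat P Q D m s) {n : ℕ} (hn : 1 ≤ n) :
    IsCoprime (PP P m n s) (expand ℂ n Q) := by
  rw [coprime_iff]
  intro z
  rw [PP_eval, expand_eval]
  by_cases hz : z = 0
  · right
    rw [hz, zero_pow (by omega)]
    exact h.Q0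
  · rcases coprime_iff.1 h.cop (z ^ n) with h1 | h1
    · left
      exact mul_ne_zero h.s0 (mul_ne_zero (pow_ne_zero _ hz) h1)
    · exact Or.inr h1

theorem Dat.P_ne {P Q : ℂ[X]} {D m : ℕ} {s : ℂ} (h : Dat P Q D m s) : P ≠ 0 := by
  rintro rfl
  exact h.P0 (by simp)

theorem Dat.Q_ne {P Q : ℂ[X]} {D m : ℕ} {s : ℂ} (h : Dat P Q D m s) : Q ≠ 0 := by
  rintro rfl
  exact h.Q0 (by simp)

theorem natDegree_PP {P Q : ℂ[X]} {D m : ℕ} {s : ℂ} (h : Dat P Q D m s) {n : ℕ} (hn : 1 ≤ n) :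
    (PP P m n s).natDegree = m + D * n := by
  unfold PP
  rw [natDegree_C_mul h.s0, natDegree_mul (pow_ne_zero _ X_ne_zero)
    ((expand_ne_zero (by omega)).2 h.P_ne), natDegree_X_pow, natDegree_expand, h.dP]

theorem exists_isF {P Q : ℂ[X]} {D m : ℕ} {s : ℂ} (h : Dat P Q D m s) {n : ℕ} (hn : 1 ≤ n) :
    ∃ f, IsF P Q m n s f := by
  obtain ⟨f, h1, h2⟩ := exists_isRat (coprime_PP h hn) ((expand_ne_zero (by omega)).2 h.Q_ne)
  refine ⟨f, h1, h2 ?_⟩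
  rw [natDegree_PP h hn, natDegree_expand, h.dQ]
  have := h.m2
  omega

theorem map_pr {P Q : ℂ[X]} {D m : ℕ} {s : ℂ} (h : Dat P Q D m s) {n : ℕ} (hn : 1 ≤ n)
    {f : OnePoint ℂ → OnePoint ℂ} (hf : IsF P Q m n s f) (z : ℂ) :
    f (z : OnePoint ℂ) = pr (s * (z ^ m * P.eval (z ^ n))) (Q.eval (z ^ n)) := by
  have h1 := map_eq hf.1 (by
    rw [natDegree_PP h hn]
    have := h.m2
    exact lt_of_lt_of_le (by omega) (le_max_left _ _)) z
  rwa [PP_eval, expand_eval] at h1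

theorem map_coe {P Q : ℂ[X]} {D m : ℕ} {s : ℂ} (h : Dat P Q D m s) {n : ℕ} (hn : 1 ≤ n)
    {f : OnePoint ℂ → OnePoint ℂ} (hf : IsF P Q m n s f) {z : ℂ} (hz : Q.eval (z ^ n) ≠ 0) :
    f (z : OnePoint ℂ) = (pl P Q m n s z : ℂ) := by
  rw [map_pr h hn hf, pr_ne hz]
  rfl

/-- The equation of the critical points. -/
theorem ceq_of_crit {P Q : ℂ[X]} {D m : ℕ} {s : ℂ} (h : Dat P Q D m s) {n : ℕ} (hn : 1 ≤ n)
    {f : OnePoint ℂ → OnePoint ℂ} (hf : IsF P Q m n s f) {z : ℂ} (hz : z ≠ 0)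
    (hP : P.eval (z ^ n) ≠ 0) (hQ : Q.eval (z ^ n) ≠ 0) (hc : Crit f (z : OnePoint ℂ)) :
    CEq P Q m n (z ^ n) := by
  refine ⟨hP, hQ, pow_ne_zero _ hz, ?_⟩
  by_contra hne
  apply hc
  set A := PP P m n s with hA
  set B := expand ℂ n Q with hB
  have hBz : B.eval z ≠ 0 := by rw [hB, expand_eval]; exact hQ
  have hd : HasStrictDerivAt (fun y => A.eval y / B.eval y)
      (((derivative A).eval z * B.eval z - A.eval z * (derivative B).eval z) / (B.eval z) ^ 2) z :=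
    (A.hasStrictDerivAt z).fun_div (B.hasStrictDerivAt z) hBz
  have hval : ((derivative A).eval z * B.eval z - A.eval z * (derivative B).eval z) * z =
      s * z ^ m * ((m : ℂ) * (P.eval (z ^ n) * Q.eval (z ^ n)) +
        n * (z ^ n * (wro P Q).eval (z ^ n))) := by
    obtain ⟨k, rfl⟩ : ∃ k, m = k + 1 := ⟨m - 1, by have := h.m2; omega⟩
    obtain ⟨l, rfl⟩ : ∃ l, n = l + 1 := ⟨n - 1, by omega⟩
    simp only [hA, hB, PP, derivative_mul, derivative_C, derivative_X_pow, derivative_expand, wro,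
      eval_mul, eval_C, eval_add, eval_sub, eval_pow, eval_X, expand_eval, eval_natCast,
      map_natCast, Nat.add_sub_cancel, zero_mul, zero_add]
    push_cast
    ring
  have hd0 : ((derivative A).eval z * B.eval z - A.eval z * (derivative B).eval z) /
      (B.eval z) ^ 2 ≠ 0 := by
    apply div_ne_zero _ (pow_ne_zero _ hBz)
    intro h0
    rw [h0, zero_mul] at hval
    have h1 := (mul_eq_zero.1 hval.symm).resolve_left (mul_ne_zero h.s0 (pow_ne_zero _ hz))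
    exact hne h1
  obtain ⟨U, hU, hinj⟩ := injOn_of_deriv hd hd0
  have hV : {y : ℂ | B.eval y ≠ 0} ∈ 𝓝 z := B.continuous.continuousAt.eventually_ne hBz
  refine ⟨((↑) : ℂ → OnePoint ℂ) '' (U ∩ {y : ℂ | B.eval y ≠ 0}), ?_, ?_⟩
  · exact OnePoint.isOpenEmbedding_coe.image_mem_nhds.2 (inter_mem hU hV)
  · rintro _ ⟨x, ⟨hx, hx'⟩, rfl⟩ _ ⟨y, ⟨hy, hy'⟩, rfl⟩ hxy
    rw [hf.1.eval x hx', hf.1.eval y hy'] at hxy
    rw [hinj hx hy (OnePoint.coe_injective hxy)]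

/-- The limit map on the logarithmic scale. -/
noncomputable def T (m : ℕ) (α β x : ℝ) : ℝ := m * x + if x < 0 then α else β

/-- The two constants. -/
noncomputable def al (P Q : ℂ[X]) (s : ℂ) : ℝ := Real.log ‖s * (P.eval 0 / Q.eval 0)‖
noncomputable def be (P Q : ℂ[X]) (D : ℕ) (s : ℂ) : ℝ := Real.log ‖s * (P.coeff D / Q.coeff D)‖

theorem far {P Q : ℂ[X]} {D m : ℕ} {s : ℂ} (h : Dat P Q D m s) {ε τ : ℝ} (hε : 0 < ε)
    (hτ : 0 < τ) : ∀ᶠ n : ℕ in atTop, ∀ z : ℂ, z ≠ 0 → τ ≤ |Real.log ‖z‖| →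
      P.eval (z ^ n) ≠ 0 ∧ Q.eval (z ^ n) ≠ 0 ∧
        |Real.log ‖pl P Q m n s z‖ - T m (al P Q s) (be P Q D s) (Real.log ‖z‖)| ≤ ε := by
  obtain ⟨ρ₁, hρ₁, H1⟩ := near_pt h.s0 h.P0 h.Q0 hε
  obtain ⟨ρ₂, hρ₂, H2⟩ := near_inf h.s0 h.dP h.dQ h.P_ne h.Q_ne hε
  have hnt : Tendsto (fun n : ℕ => (n : ℝ) * τ) atTop atTop :=
    tendsto_natCast_atTop_atTop.atTop_mul_const hτ
  have h1 : ∀ᶠ n : ℕ in atTop, Real.exp (-(n * τ)) < ρ₁ := by
    have h2 : Tendsto (fun n : ℕ => Real.exp (-(n * τ))) atTop (𝓝 0) :=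
      Real.tendsto_exp_neg_atTop_nhds_zero.comp hnt
    exact h2.eventually (gt_mem_nhds hρ₁)
  have h2 : ∀ᶠ n : ℕ in atTop, ρ₂ < Real.exp (n * τ) :=
    (Real.tendsto_exp_atTop.comp hnt).eventually_gt_atTop ρ₂
  filter_upwards [h1, h2] with n hn1 hn2 z hz hzτ
  have hz0 : 0 < ‖z‖ := norm_pos_iff.2 hz
  have hnorm : ‖z ^ n‖ = Real.exp (n * Real.log ‖z‖) := by
    rw [norm_pow, ← Real.rpow_natCast, Real.rpow_def_of_pos hz0, mul_comm]
  have hn0 : (0 : ℝ) ≤ n := Nat.cast_nonneg n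
  have hval : ∀ (hP : P.eval (z ^ n) ≠ 0) (hQ : Q.eval (z ^ n) ≠ 0),
      Real.log ‖pl P Q m n s z‖ = lg P Q s (z ^ n) + m * Real.log ‖z‖ := by
    intro hP hQ
    unfold pl lg
    have e : s * (z ^ m * P.eval (z ^ n)) / Q.eval (z ^ n) =
        (s * (P.eval (z ^ n) / Q.eval (z ^ n))) * z ^ m := by ring
    rw [e, norm_mul, Real.log_mul (norm_ne_zero_iff.2 (mul_ne_zero h.s0 (div_ne_zero hP hQ)))
      (norm_ne_zero_iff.2 (pow_ne_zero _ hz)), norm_pow, Real.log_pow]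
  rcases lt_or_ge (Real.log ‖z‖) 0 with hx | hx
  · have h3 : ‖z ^ n - 0‖ < ρ₁ := by
      rw [sub_zero, hnorm]
      refine lt_of_le_of_lt (Real.exp_le_exp.2 ?_) hn1
      rw [abs_of_neg hx] at hzτ
      nlinarith
    obtain ⟨h4, h5, h6⟩ := H1 _ h3
    refine ⟨h4, h5, ?_⟩
    rw [hval h4 h5, T, if_pos hx]
    have e : lg P Q s (z ^ n) + m * Real.log ‖z‖ - (m * Real.log ‖z‖ + al P Q s) =
        lg P Q s (z ^ n) - lg P Q s 0 := by
      unfold al
      rw [show lg P Q s 0 = Real.log ‖s * (P.eval 0 / Q.eval 0)‖ from rfl]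
      ring
    rw [e]
    exact h6
  · have h3 : ρ₂ < ‖z ^ n‖ := by
      rw [hnorm]
      refine lt_of_lt_of_le hn2 (Real.exp_le_exp.2 ?_)
      rw [abs_of_nonneg hx] at hzτ
      nlinarith
    obtain ⟨h4, h5, h6⟩ := H2 _ h3
    refine ⟨h4, h5, ?_⟩
    rw [hval h4 h5, T, if_neg (not_lt.2 hx)]
    have e : lg P Q s (z ^ n) + m * Real.log ‖z‖ - (m * Real.log ‖z‖ + be P Q D s) =
        lg P Q s (z ^ n) - Real.log ‖s * (P.coeff D / Q.coeff D)‖ := by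
      unfold be
      ring
    rw [e]
    exact h6

theorem pl_ne {P Q : ℂ[X]} {D m : ℕ} {s : ℂ} (h : Dat P Q D m s) {n : ℕ} {z : ℂ} (hz : z ≠ 0)
    (hP : P.eval (z ^ n) ≠ 0) (hQ : Q.eval (z ^ n) ≠ 0) : pl P Q m n s z ≠ 0 :=
  div_ne_zero (mul_ne_zero h.s0 (mul_ne_zero (pow_ne_zero _ hz) hP)) hQ

theorem shadow {P Q : ℂ[X]} {D m : ℕ} {s : ℂ} (h : Dat P Q D m s) (c : ℝ) :
    ∀ k : ℕ, (∀ i < k, (T m (al P Q s) (be P Q D s))^[i] c ≠ 0) → ∀ ε : ℝ, 0 < ε →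
      ∃ δ : ℝ, 0 < δ ∧ ∀ᶠ n : ℕ in atTop, ∀ f, IsF P Q m n s f → ∀ z : ℂ, z ≠ 0 →
        |Real.log ‖z‖ - c| ≤ δ → ∃ z' : ℂ, z' ≠ 0 ∧ f^[k] (z : OnePoint ℂ) = (z' : OnePoint ℂ) ∧
          |Real.log ‖z'‖ - (T m (al P Q s) (be P Q D s))^[k] c| ≤ ε := by
  intro k
  induction k with
  | zero =>
    intro _ ε hε
    exact ⟨ε, hε, Eventually.of_forall fun n f _ z hz hzc => ⟨z, hz, rfl, hzc⟩⟩
  | succ k ih =>
    intro hne ε hε
    set S := T m (al P Q s) (be P Q D s) with hS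
    have hx0 : S^[k] c ≠ 0 := hne k k.lt_succ_self
    set x := S^[k] c with hx
    have hxa : 0 < |x| := abs_pos.2 hx0
    have hm0 : (0 : ℝ) < m := by
      have := h.m2
      exact_mod_cast (by omega : 0 < m)
    obtain ⟨δ, hδ, h1⟩ := ih (fun i hi => hne i (by omega)) (min (|x| / 2) (ε / (2 * m)))
      (lt_min (by positivity) (by positivity))
    refine ⟨δ, hδ, ?_⟩
    filter_upwards [h1, far h (half_pos hε) (half_pos hxa), eventually_ge_atTop 1] with n h2 h3 hn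
      f hf z hz hzc
    obtain ⟨z', hz', hfz, hlog⟩ := h2 f hf z hz hzc
    have h4 : |Real.log ‖z'‖ - x| ≤ |x| / 2 := hlog.trans (min_le_left _ _)
    have h5 : |Real.log ‖z'‖ - x| ≤ ε / (2 * m) := hlog.trans (min_le_right _ _)
    have h6 : |x| / 2 ≤ |Real.log ‖z'‖| := by
      have := abs_sub_abs_le_abs_sub x (Real.log ‖z'‖)
      rw [abs_sub_comm] at this
      linarith
    obtain ⟨h7, h8, h9⟩ := h3 z' hz' h6
    refine ⟨pl P Q m n s z', pl_ne h hz' h7 h8, ?_, ?_⟩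
    · rw [Function.iterate_succ_apply', hfz, map_coe h hn hf h8]
    · rw [Function.iterate_succ_apply', ← hx]
      have h10 : S (Real.log ‖z'‖) - S x = m * (Real.log ‖z'‖ - x) := by
        rw [hS]
        unfold T
        have hsign : (Real.log ‖z'‖ < 0 ↔ x < 0) := by
          rw [abs_le] at h4
          constructor
          · intro h11
            by_contra h12
            rw [not_lt] at h12
            rw [abs_of_nonneg h12] at h4
            have h13 : 0 < x := lt_of_le_of_ne h12 (Ne.symm hx0)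
            linarith [h4.1]
          · intro h11
            rw [abs_of_neg h11] at h4
            linarith [h4.2]
        by_cases h11 : x < 0
        · rw [if_pos h11, if_pos (hsign.2 h11)]; ring
        · rw [if_neg h11, if_neg (fun h12 => h11 (hsign.1 h12))]; ring
      have h12 : |S (Real.log ‖z'‖) - S x| ≤ ε / 2 := by
        rw [h10, abs_mul, abs_of_pos hm0]
        calc (m : ℝ) * |Real.log ‖z'‖ - x| ≤ m * (ε / (2 * m)) := by gcongr
          _ = ε / 2 := by field_simp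
      calc |Real.log ‖pl P Q m n s z'‖ - S x|
          = |(Real.log ‖pl P Q m n s z'‖ - S (Real.log ‖z'‖)) + (S (Real.log ‖z'‖) - S x)| := by
            congr 1; ring
        _ ≤ |Real.log ‖pl P Q m n s z'‖ - S (Real.log ‖z'‖)| + |S (Real.log ‖z'‖) - S x| :=
            abs_add_le _ _
        _ ≤ ε / 2 + ε / 2 := add_le_add h9 h12
        _ = ε := by ring

theorem basins {P Q : ℂ[X]} {D m : ℕ} {s : ℂ} (h : Dat P Q D m s) (hm3 : 3 ≤ m) {K : ℝ}
    (hK : 1 ≤ K) (hKa : |al P Q s| + 1 ≤ K) (hKb : |be P Q D s| + 1 ≤ K) :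
    ∀ᶠ n : ℕ in atTop, ∀ f, IsF P Q m n s f →
      (∀ z : ℂ, (z = 0 ∨ Real.log ‖z‖ ≤ -K) → Sinks f (z : OnePoint ℂ)) ∧
      (∀ z : ℂ, z ≠ 0 → K ≤ Real.log ‖z‖ → Sinks f (z : OnePoint ℂ)) ∧ Sinks f ∞ := by
  have hm : (3 : ℝ) ≤ m := by exact_mod_cast hm3
  filter_upwards [far h one_pos one_pos, eventually_ge_atTop 1] with n hn hn1 f hf
  have hf0 : f ((0 : ℂ) : OnePoint ℂ) = ((0 : ℂ) : OnePoint ℂ) := by
    have h1 : Q.eval ((0 : ℂ) ^ n) ≠ 0 := by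
      rw [zero_pow (by omega)]
      exact h.Q0
    rw [map_coe h hn1 hf h1, pl, zero_pow (by have := h.m2; omega : m ≠ 0)]
    simp
  have ha := abs_le.1 (show |al P Q s| ≤ K - 1 by linarith)
  have hb := abs_le.1 (show |be P Q D s| ≤ K - 1 by linarith)
  -- one step
  have hdown : ∀ z : ℂ, z ≠ 0 → Real.log ‖z‖ ≤ -K → ∃ z' : ℂ, z' ≠ 0 ∧
      f (z : OnePoint ℂ) = (z' : OnePoint ℂ) ∧ Real.log ‖z'‖ ≤ 2 * Real.log ‖z‖ := by
    intro z hz hzK
    obtain ⟨h1, h2, h3⟩ := hn z hz (by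
      rw [abs_of_neg (by linarith)]
      linarith)
    refine ⟨_, pl_ne h hz h1 h2, map_coe h hn1 hf h2, ?_⟩
    rw [T, if_pos (by linarith)] at h3
    have h4 := (abs_le.1 h3).2
    nlinarith
  have hup : ∀ z : ℂ, z ≠ 0 → K ≤ Real.log ‖z‖ → ∃ z' : ℂ, z' ≠ 0 ∧
      f (z : OnePoint ℂ) = (z' : OnePoint ℂ) ∧ 2 * Real.log ‖z‖ ≤ Real.log ‖z'‖ := by
    intro z hz hzK
    obtain ⟨h1, h2, h3⟩ := hn z hz (by
      rw [abs_of_nonneg (by linarith)]
      linarith)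
    refine ⟨_, pl_ne h hz h1 h2, map_coe h hn1 hf h2, ?_⟩
    rw [T, if_neg (by linarith)] at h3
    have h4 := (abs_le.1 h3).1
    nlinarith
  have hdk : ∀ z : ℂ, z ≠ 0 → Real.log ‖z‖ ≤ -K → ∀ k : ℕ, ∃ z' : ℂ, z' ≠ 0 ∧
      f^[k] (z : OnePoint ℂ) = (z' : OnePoint ℂ) ∧ Real.log ‖z'‖ ≤ 2 ^ k * Real.log ‖z‖ := by
    intro z hz hzK k
    induction k with
    | zero => exact ⟨z, hz, rfl, by simp⟩
    | succ k ih =>
      obtain ⟨z', h1, h2, h3⟩ := ih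
      have h4 : (1 : ℝ) ≤ 2 ^ k := one_le_pow₀ (by norm_num)
      have h5 : Real.log ‖z'‖ ≤ -K := by nlinarith
      obtain ⟨z'', h6, h7, h8⟩ := hdown z' h1 h5
      refine ⟨z'', h6, ?_, ?_⟩
      · rw [Function.iterate_succ_apply', h2, h7]
      · rw [pow_succ]; linarith
  have huk : ∀ z : ℂ, z ≠ 0 → K ≤ Real.log ‖z‖ → ∀ k : ℕ, ∃ z' : ℂ, z' ≠ 0 ∧
      f^[k] (z : OnePoint ℂ) = (z' : OnePoint ℂ) ∧ 2 ^ k * Real.log ‖z‖ ≤ Real.log ‖z'‖ := by
    intro z hz hzK k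
    induction k with
    | zero => exact ⟨z, hz, rfl, by simp⟩
    | succ k ih =>
      obtain ⟨z', h1, h2, h3⟩ := ih
      have h4 : (1 : ℝ) ≤ 2 ^ k := one_le_pow₀ (by norm_num)
      have h5 : K ≤ Real.log ‖z'‖ := by nlinarith
      obtain ⟨z'', h6, h7, h8⟩ := hup z' h1 h5
      refine ⟨z'', h6, ?_, ?_⟩
      · rw [Function.iterate_succ_apply', h2, h7]
      · rw [pow_succ]; linarith
  have hpow : Tendsto (fun k : ℕ => (2 : ℝ) ^ k) atTop atTop :=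
    tendsto_pow_atTop_atTop_of_one_lt one_lt_two
  have hzero : ∀ z : ℂ, (z = 0 ∨ Real.log ‖z‖ ≤ -K) →
      Tendsto (fun k : ℕ => f^[k] (z : OnePoint ℂ)) atTop (𝓝 ((0 : ℂ) : OnePoint ℂ)) := by
    intro z hz
    by_cases hz0 : z = 0
    · subst hz0
      have h1 : ∀ k : ℕ, f^[k] ((0 : ℂ) : OnePoint ℂ) = ((0 : ℂ) : OnePoint ℂ) :=
        fun k => Function.iterate_fixed hf0 k
      simp only [h1]
      exact tendsto_const_nhds
    · have hzK := hz.resolve_left hz0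
      choose u hu1 hu2 hu3 using hdk z hz0 hzK
      have h1 : Tendsto u atTop (𝓝 0) := by
        rw [tendsto_zero_iff_norm_tendsto_zero]
        have h2 : Tendsto (fun k : ℕ => Real.exp (2 ^ k * Real.log ‖z‖)) atTop (𝓝 0) := by
          apply Real.tendsto_exp_atBot.comp
          exact hpow.atTop_mul_const_of_neg (by linarith)
        refine squeeze_zero (fun k => norm_nonneg _) (fun k => ?_) h2
        rw [← Real.log_le_iff_le_exp (norm_pos_iff.2 (hu1 k))]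
        exact hu3 k
      have h2 := ((OnePoint.continuous_coe (X := ℂ)).tendsto 0).comp h1
      exact h2.congr fun k => (hu2 k).symm
  have hinf : ∀ z : ℂ, z ≠ 0 → K ≤ Real.log ‖z‖ →
      Tendsto (fun k : ℕ => f^[k] (z : OnePoint ℂ)) atTop (𝓝 ∞) := by
    intro z hz0 hzK
    choose u hu1 hu2 hu3 using huk z hz0 hzK
    have h1 : Tendsto (fun k => ‖u k‖) atTop atTop := by
      have h2 : Tendsto (fun k : ℕ => Real.exp (2 ^ k * Real.log ‖z‖)) atTop atTop :=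
        Real.tendsto_exp_atTop.comp (hpow.atTop_mul_const (by linarith))
      refine tendsto_atTop_mono (fun k => ?_) h2
      rw [← Real.le_log_iff_exp_le (norm_pos_iff.2 (hu1 k))]
      exact hu3 k
    exact (tendsto_coe_nhds_infty_of_norm h1).congr fun k => (hu2 k).symm
  have hsink0 : ∃ U ∈ 𝓝 ((0 : ℂ) : OnePoint ℂ), ∀ w ∈ U,
      Tendsto (fun k : ℕ => f^[1 * k] w) atTop (𝓝 ((0 : ℂ) : OnePoint ℂ)) := by
    refine ⟨((↑) : ℂ → OnePoint ℂ) '' Metric.ball 0 (Real.exp (-K)),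
      OnePoint.isOpenEmbedding_coe.image_mem_nhds.2 (Metric.ball_mem_nhds _ (Real.exp_pos _)), ?_⟩
    rintro _ ⟨w, hw, rfl⟩
    simp only [one_mul]
    apply hzero
    by_cases hw0 : w = 0
    · exact Or.inl hw0
    · right
      rw [mem_ball_zero_iff] at hw
      exact ((Real.log_lt_iff_lt_exp (norm_pos_iff.2 hw0)).2 hw).le
  have hsinki : ∃ U ∈ 𝓝 (∞ : OnePoint ℂ), ∀ w ∈ U,
      Tendsto (fun k : ℕ => f^[1 * k] w) atTop (𝓝 (∞ : OnePoint ℂ)) := by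
    refine ⟨(((↑) : ℂ → OnePoint ℂ) '' Metric.closedBall 0 (Real.exp K))ᶜ, ?_, ?_⟩
    · apply IsOpen.mem_nhds
      · exact ((isCompact_closedBall (0 : ℂ) _).image OnePoint.continuous_coe).isClosed.isOpen_compl
      · exact OnePoint.infty_notMem_image_coe
    · intro w hw
      simp only [one_mul]
      induction w using OnePoint.rec with
      | infty =>
        have h1 : ∀ k : ℕ, f^[k] ∞ = ∞ := fun k => Function.iterate_fixed hf.2 k
        simp only [h1]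
        exact tendsto_const_nhds
      | coe w =>
        have h1 : Real.exp K < ‖w‖ := by
          by_contra h2
          apply hw
          exact ⟨w, by rw [mem_closedBall_zero_iff]; exact not_lt.1 h2, rfl⟩
        have h2 : w ≠ 0 := by
          rintro rfl
          rw [norm_zero] at h1
          exact absurd h1 (not_lt.2 (Real.exp_pos K).le)
        exact hinf w h2 ((Real.le_log_iff_exp_le (norm_pos_iff.2 h2)).2 h1.le)
  refine ⟨fun z hz => ⟨_, 1, one_pos, hf0, hsink0, ?_⟩,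
    fun z hz hzK => ⟨_, 1, one_pos, hf.2, hsinki, ?_⟩, ⟨_, 1, one_pos, hf.2, hsinki, ?_⟩⟩
  · simp only [one_mul]; exact hzero z hz
  · simp only [one_mul]; exact hinf z hz hzK
  · simp only [one_mul]
    have h1 : ∀ k : ℕ, f^[k] ∞ = ∞ := fun k => Function.iterate_fixed hf.2 k
    simp only [h1]
    exact tendsto_const_nhds

theorem Cs_finite {P Q : ℂ[X]} {D m : ℕ} {s : ℂ} (h : Dat P Q D m s) : (Cs P Q D s).Finite := by
  have hD : 1 ≤ max P.natDegree Q.natDegree := by rw [h.dP]; exact h.D1.trans (le_max_left _ _)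
  have hW : wro P Q ≠ 0 := wro_ne_zero h.cop hD
  refine Set.Finite.union (by simp) (Set.Finite.image _ ?_)
  refine ((Multiset.toFinset (wro P Q).roots).finite_toSet).subset ?_
  rintro y ⟨hy, -⟩
  rw [Finset.mem_coe, Multiset.mem_toFinset, mem_roots hW]
  exact hy

/-- Hyperbolicity when the orbits of the marked scales escape. -/
theorem main {P Q : ℂ[X]} {D m : ℕ} {s : ℂ} (h : Dat P Q D m s) (hm3 : 3 ≤ m) {K : ℝ}
    (hK : 1 ≤ K) (hKa : |al P Q s| + 1 ≤ K) (hKb : |be P Q D s| + 1 ≤ K)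
    (hgood : ∀ c ∈ Cs P Q D s, ∃ k : ℕ, K < |(T m (al P Q s) (be P Q D s))^[k] c| ∧
      ∀ i < k, (T m (al P Q s) (be P Q D s))^[i] c ≠ 0) :
    ∀ᶠ n : ℕ in atTop, ∀ f, IsF P Q m n s f → ∀ c, Crit f c → Sinks f c := by
  choose! k hk1 hk2 using hgood
  have hsh : ∀ c ∈ Cs P Q D s, ∃ δ : ℝ, 0 < δ ∧ ∀ᶠ n : ℕ in atTop, ∀ f, IsF P Q m n s f →
      ∀ z : ℂ, z ≠ 0 → |Real.log ‖z‖ - c| ≤ δ → ∃ z' : ℂ, z' ≠ 0 ∧
        f^[k c] (z : OnePoint ℂ) = (z' : OnePoint ℂ) ∧ K ≤ |Real.log ‖z'‖| := by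
    intro c hc
    have h1 := hk1 c hc
    obtain ⟨δ, hδ, h2⟩ := shadow h c (k c) (hk2 c hc)
      (|(T m (al P Q s) (be P Q D s))^[k c] c| - K) (by linarith)
    refine ⟨δ, hδ, ?_⟩
    filter_upwards [h2] with n hn f hf z hz hzc
    obtain ⟨z', h3, h4, h5⟩ := hn f hf z hz hzc
    refine ⟨z', h3, h4, ?_⟩
    have := abs_sub_abs_le_abs_sub ((T m (al P Q s) (be P Q D s))^[k c] c) (Real.log ‖z'‖)
    rw [abs_sub_comm] at this
    linarith
  choose! δ hδ hsh using hsh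
  have hfin := Cs_finite h
  obtain ⟨ε, hε, hεδ⟩ : ∃ ε : ℝ, 0 < ε ∧ ∀ c ∈ Cs P Q D s, ε ≤ δ c := by
    have hne : (hfin.toFinset.image δ).Nonempty := by
      refine ⟨δ (al P Q s), Finset.mem_image.2 ⟨_, hfin.mem_toFinset.2 (Or.inl (Or.inl rfl)), rfl⟩⟩
    refine ⟨(hfin.toFinset.image δ).min' hne, ?_, ?_⟩
    · obtain ⟨c, hc, he⟩ := Finset.mem_image.1 (Finset.min'_mem _ hne)
      rw [← he]
      exact hδ c (hfin.mem_toFinset.1 hc)
    · intro c hc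
      exact Finset.min'_le _ _ (Finset.mem_image.2 ⟨c, hfin.mem_toFinset.2 hc, rfl⟩)
  have hall : ∀ᶠ n : ℕ in atTop, ∀ c ∈ Cs P Q D s, ∀ f, IsF P Q m n s f →
      ∀ z : ℂ, z ≠ 0 → |Real.log ‖z‖ - c| ≤ δ c → ∃ z' : ℂ, z' ≠ 0 ∧
        f^[k c] (z : OnePoint ℂ) = (z' : OnePoint ℂ) ∧ K ≤ |Real.log ‖z'‖| := by
    have h1 : ∀ᶠ n : ℕ in atTop, ∀ c ∈ hfin.toFinset, ∀ f, IsF P Q m n s f →
      ∀ z : ℂ, z ≠ 0 → |Real.log ‖z‖ - c| ≤ δ c → ∃ z' : ℂ, z' ≠ 0 ∧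
        f^[k c] (z : OnePoint ℂ) = (z' : OnePoint ℂ) ∧ K ≤ |Real.log ‖z'‖| := by
      rw [Filter.eventually_all_finset]
      intro c hc
      exact hsh c (hfin.mem_toFinset.1 hc)
    filter_upwards [h1] with n hn c hc
    exact hn c (hfin.mem_toFinset.2 hc)
  filter_upwards [hall, basins h hm3 hK hKa hKb, crit_val h hε K, eventually_ge_atTop 1] with n
    h1 h2 h3 hn f hf c hc
  obtain ⟨hb1, hb2, hb3⟩ := h2 f hf
  have hbig : ∀ z : ℂ, z ≠ 0 → K ≤ |Real.log ‖z‖| → Sinks f (z : OnePoint ℂ) := by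
    intro z hz hzK
    rcases le_abs.1 hzK with h4 | h4
    · exact hb2 z hz h4
    · exact hb1 z (Or.inr (by linarith))
  induction c using OnePoint.rec with
  | infty => exact hb3
  | coe z =>
    by_cases hz : z = 0
    · exact hb1 z (Or.inl hz)
    by_cases hQ : Q.eval (z ^ n) = 0
    · apply sinks_of_image hf.1.cont
      rw [map_pr h hn hf, hQ, pr_zero]
      exact hb3
    by_cases hP : P.eval (z ^ n) = 0
    · apply sinks_of_image hf.1.cont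
      rw [map_coe h hn hf hQ]
      apply hb1
      left
      unfold pl
      rw [hP]
      simp
    have hceq := ceq_of_crit h hn hf hz hP hQ hc
    have hne := pl_ne h hz hP hQ
    apply sinks_of_image hf.1.cont
    rw [map_coe h hn hf hQ]
    rcases h3 z hceq hz with ⟨c, hc, h4⟩ | h4 | h4
    · obtain ⟨z', h5, h6, h7⟩ := h1 c hc f hf _ hne (h4.trans (hεδ c hc))
      apply sinks_of_iterate hf.1.cont (m := k c)
      rw [h6]
      exact hbig z' h5 h7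
    · exact hb1 _ (Or.inr h4)
    · exact hb2 _ hne h4

end Pool.Agent.X88.RS
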